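import Pool.Agent.H61.WL.Ab
import Mathlib.Analysis.SpecialFunctions.Log.Deriv
import Mathlib.Analysis.Complex.ExponentialBounds

/-!
# WILD, chapter L (local density): the hypotheses on `b` and the sum of `b_p √(log p) / p`
-/

set_option autoImplicit false

namespace Pool.Agent.H61.WL

open Real

/-- the hypotheses: nonnegative, supported on primes above `P`, density at most `β / (log x)^2` in intervals of length `x^(1-δ)` -/
structure Dn (b : ℕ → ℝ) (P : ℕ) (β A δ : ℝ) : Prop where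
  nn : ∀ p, 0 ≤ b p
  supp : ∀ p, b p ≠ 0 → p.Prime ∧ P < p
  H1 : ∀ x a c : ℝ, 2 ≤ x → x ≤ a → c ≤ 2 * x → x ^ (1 - δ) ≤ c - a →
    ∑ p ∈ Finset.Ioc ⌊a⌋₊ ⌊c⌋₊, b p ≤ β * (c - a) / log x ^ 2
  H2 : ∀ p, b p ≤ log p ^ A

private theorem block {b : ℕ → ℝ} {P : ℕ} {β A δ : ℝ} (h : Dn b P β A δ) (hδ : 0 < δ) {x : ℝ} (hx : 2 ≤ x) :
    ∑ p ∈ Finset.Ioc ⌊x⌋₊ ⌊2 * x⌋₊, b p * √(log p) / p ≤ 2 * β * √(log x) / log x ^ 2 := by
  have hx0 : (0 : ℝ) < x := by linarith
  have hlog : 0 < log x := log_pos (by linarith)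
  have h1 : ∀ p ∈ Finset.Ioc ⌊x⌋₊ ⌊2 * x⌋₊, b p * √(log p) / p ≤ b p * (2 * √(log x) / x) := by
    intro p hp
    obtain ⟨hp1, hp2⟩ := Finset.mem_Ioc.1 hp
    have h2 : x < p := (Nat.floor_lt hx0.le).1 hp1
    have h3 : (p : ℝ) ≤ 2 * x := (Nat.le_floor_iff (by linarith)).1 hp2
    have h4 : √(log p) ≤ 2 * √(log x) := by
      rw [show (2 : ℝ) * √(log x) = √(4 * log x) by
        rw [sqrt_mul (by norm_num), show (4 : ℝ) = 2 ^ 2 by norm_num, sqrt_sq (by norm_num)]]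
      apply sqrt_le_sqrt
      calc log p ≤ log (2 * x) := log_le_log (by linarith) h3
        _ = log 2 + log x := log_mul (by norm_num) hx0.ne'
        _ ≤ log x + log x := by linarith [log_le_log (by norm_num) hx]
        _ ≤ 4 * log x := by linarith
    rw [mul_div_assoc]
    apply mul_le_mul_of_nonneg_left _ (h.nn p)
    rw [div_le_div_iff₀ (by linarith) hx0]
    exact mul_le_mul h4 h2.le hx0.le (by positivity)
  refine (Finset.sum_le_sum h1).trans ?_
  rw [← Finset.sum_mul]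
  have h5 := h.H1 x x (2 * x) hx le_rfl le_rfl (by
    calc x ^ (1 - δ) ≤ x ^ (1 : ℝ) := rpow_le_rpow_of_exponent_le (by linarith) (by linarith)
      _ = 2 * x - x := by rw [rpow_one]; ring)
  calc (∑ p ∈ Finset.Ioc ⌊x⌋₊ ⌊2 * x⌋₊, b p) * (2 * √(log x) / x)
      ≤ (β * (2 * x - x) / log x ^ 2) * (2 * √(log x) / x) := mul_le_mul_of_nonneg_right h5 (by positivity)
    _ = 2 * β * √(log x) / log x ^ 2 := by
      field_simp
      ring

private theorem tele {L : ℝ} (hL : log 2 ≤ L) : 2 * √L / L ^ 2 ≤ 10 * (1 / √L - 1 / √(L + log 2)) := by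
  have hl : 0 < log 2 := log_pos (by norm_num)
  have hl7 : 0.69 < log 2 := lt_trans (by norm_num) log_two_gt_d9
  have hL0 : 0 < L := by linarith
  obtain ⟨s, hs⟩ : ∃ s, s = √L := ⟨_, rfl⟩
  obtain ⟨t, ht⟩ : ∃ t, t = √(L + log 2) := ⟨_, rfl⟩
  have hs0 : 0 < s := by rw [hs]; exact sqrt_pos.2 hL0
  have ht0 : 0 < t := by rw [ht]; exact sqrt_pos.2 (by linarith)
  have hs2 : s ^ 2 = L := by rw [hs]; exact sq_sqrt hL0.le
  have ht2 : t ^ 2 = L + log 2 := by rw [ht]; exact sq_sqrt (by linarith)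
  have hst : s < t := by
    rw [hs, ht]
    exact sqrt_lt_sqrt hL0.le (by linarith)
  have hts : t ≤ 1.42 * s := by
    have : t ^ 2 ≤ (1.42 * s) ^ 2 := by
      rw [ht2, mul_pow, hs2]
      linarith
    exact (pow_le_pow_iff_left₀ ht0.le (by positivity) (by norm_num)).1 this
  rw [← hs, ← ht, ← hs2]
  have e1 : 1 / s - 1 / t = log 2 / (s * t * (s + t)) := by
    have : log 2 = t ^ 2 - s ^ 2 := by rw [ht2, hs2]; ring
    rw [this]
    field_simp
    ring
  rw [e1, show 2 * s / (s ^ 2) ^ 2 = 2 / s ^ 3 by field_simp, mul_div_assoc', div_le_div_iff₀ (by positivity) (by positivity)]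
  have h1 : s * t * (s + t) ≤ s * (1.42 * s) * (s + 1.42 * s) := by gcongr
  calc 2 * (s * t * (s + t)) ≤ 2 * (s * (1.42 * s) * (s + 1.42 * s)) := by linarith
    _ = 6.8728 * s ^ 3 := by ring
    _ ≤ 10 * log 2 * s ^ 3 := by
      apply mul_le_mul_of_nonneg_right _ (by positivity)
      linarith

private theorem dyadic {b : ℕ → ℝ} {P : ℕ} {β A δ : ℝ} (h : Dn b P β A δ) (hδ : 0 < δ) (hβ : 0 ≤ β) (hP : 2 ≤ P) (K : ℕ) :
    ∑ p ∈ Finset.Ioc P (2 ^ K * P), b p * √(log p) / p ≤ 10 * β * (1 / √(log P) - 1 / √(log P + K * log 2)) := by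
  have hP2 : (2 : ℝ) ≤ P := by exact_mod_cast hP
  induction K with
  | zero => simp
  | succ K ih =>
    have hx : (2 : ℝ) ≤ 2 ^ K * P := by
      calc (2 : ℝ) ≤ P := hP2
        _ = 1 * P := (one_mul _).symm
        _ ≤ 2 ^ K * P := mul_le_mul_of_nonneg_right (one_le_pow₀ (by norm_num)) (by linarith)
    have h1 := block h hδ hx
    have f1 : ⌊(2 : ℝ) ^ K * P⌋₊ = 2 ^ K * P := by
      rw [show (2 : ℝ) ^ K * P = ((2 ^ K * P : ℕ) : ℝ) by push_cast; ring, Nat.floor_natCast]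
    have f2 : ⌊2 * ((2 : ℝ) ^ K * P)⌋₊ = 2 ^ (K + 1) * P := by
      rw [show 2 * ((2 : ℝ) ^ K * P) = ((2 ^ (K + 1) * P : ℕ) : ℝ) by push_cast; ring, Nat.floor_natCast]
    rw [f1, f2] at h1
    have hL : log (2 ^ K * P : ℝ) = log P + K * log 2 := by
      rw [log_mul (by positivity) (by linarith), log_pow]
      ring
    rw [hL] at h1
    have hLge : log 2 ≤ log P + K * log 2 := by
      have := log_le_log (by norm_num) hP2
      have h0 : 0 ≤ (K : ℝ) * log 2 := mul_nonneg (Nat.cast_nonneg _) (log_nonneg (by norm_num))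
      linarith
    have h2 := tele hLge
    have e : Finset.Ioc P (2 ^ (K + 1) * P) = Finset.Ioc P (2 ^ K * P) ∪ Finset.Ioc (2 ^ K * P) (2 ^ (K + 1) * P) := by
      rw [Finset.Ioc_union_Ioc_eq_Ioc]
      · exact Nat.le_mul_of_pos_left P (by positivity)
      · exact Nat.mul_le_mul_right P (Nat.pow_le_pow_right (by norm_num) (by omega))
    rw [e, Finset.sum_union (Finset.Ioc_disjoint_Ioc_of_le le_rfl)]
    push_cast
    have h3 : 2 * β * √(log P + K * log 2) / (log P + K * log 2) ^ 2 ≤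
        10 * β * (1 / √(log P + K * log 2) - 1 / √(log P + K * log 2 + log 2)) := by
      calc 2 * β * √(log P + K * log 2) / (log P + K * log 2) ^ 2
          = β * (2 * √(log P + K * log 2) / (log P + K * log 2) ^ 2) := by ring
        _ ≤ β * (10 * (1 / √(log P + K * log 2) - 1 / √(log P + K * log 2 + log 2))) :=
          mul_le_mul_of_nonneg_left h2 hβ
        _ = _ := by ring
    rw [show log P + (K + 1 : ℝ) * log 2 = log P + K * log 2 + log 2 by ring]
    calc _ ≤ 10 * β * (1 / √(log P) - 1 / √(log P + K * log 2)) +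
          10 * β * (1 / √(log P + K * log 2) - 1 / √(log P + K * log 2 + log 2)) := add_le_add ih (h1.trans h3)
      _ = _ := by ring

/-- the sum over all primes -/
theorem Dn.theta {b : ℕ → ℝ} {P : ℕ} {β A δ : ℝ} (h : Dn b P β A δ) (hδ : 0 < δ) (hβ : 0 ≤ β) (hP : 2 ≤ P)
    (S : Finset ℕ) : ∑ p ∈ S, b p * √(log p) / p ≤ 10 * β / √(log P) := by
  have hnn : ∀ p : ℕ, 0 ≤ b p * √(log p) / p := fun p =>
    div_nonneg (mul_nonneg (h.nn p) (sqrt_nonneg _)) (Nat.cast_nonneg _)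
  obtain ⟨K, hK⟩ : ∃ K : ℕ, ∀ p ∈ S, p ≤ 2 ^ K * P := by
    refine ⟨S.sup id, fun p hp => ?_⟩
    calc p ≤ S.sup id := Finset.le_sup (f := id) hp
      _ ≤ 2 ^ (S.sup id) := Nat.lt_two_pow_self.le
      _ ≤ 2 ^ (S.sup id) * P := Nat.le_mul_of_pos_right _ (by omega)
  have h1 : ∑ p ∈ S, b p * √(log p) / p = ∑ p ∈ S.filter (fun p => P < p), b p * √(log p) / p := by
    symm
    apply Finset.sum_filter_of_ne
    intro p _ hne
    by_contra hc
    apply hne
    have : b p = 0 := by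
      by_contra h0
      exact hc (h.supp p h0).2
    rw [this, zero_mul, zero_div]
  have h2 : S.filter (fun p => P < p) ⊆ Finset.Ioc P (2 ^ K * P) := by
    intro p hp
    obtain ⟨hp1, hp2⟩ := Finset.mem_filter.1 hp
    exact Finset.mem_Ioc.2 ⟨hp2, hK p hp1⟩
  rw [h1]
  calc _ ≤ ∑ p ∈ Finset.Ioc P (2 ^ K * P), b p * √(log p) / p :=
        Finset.sum_le_sum_of_subset_of_nonneg h2 fun p _ _ => hnn p
    _ ≤ _ := dyadic h hδ hβ hP K
    _ ≤ 10 * β * (1 / √(log P)) := by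
      apply mul_le_mul_of_nonneg_left _ (by positivity)
      have : 0 ≤ 1 / √(log P + K * log 2) := by positivity
      linarith
    _ = 10 * β / √(log P) := by ring

theorem Dn.theta' {b : ℕ → ℝ} {P : ℕ} {β A δ : ℝ} (h : Dn b P β A δ) (hδ : 0 < δ) (hβ : 0 ≤ β) (hP : 3 ≤ P)
    (S : Finset ℕ) : ∑ p ∈ S, b p / p ≤ 10 * β / √(log P) := by
  refine le_trans (Finset.sum_le_sum fun p _ => ?_) (h.theta hδ hβ (by omega) S)
  by_cases h0 : b p = 0
  · rw [h0, zero_mul, zero_div]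
  · have hp := (h.supp p h0).2
    have h3 : (3 : ℝ) ≤ p := by exact_mod_cast (by omega : 3 ≤ p)
    have h1 : (1 : ℝ) ≤ √(log p) := by
      rw [one_le_sqrt]
      rw [le_log_iff_exp_le (by linarith)]
      exact le_trans (by have := exp_one_lt_d9; linarith) h3
    rw [mul_div_right_comm]
    exact le_mul_of_one_le_right (div_nonneg (h.nn p) (Nat.cast_nonneg _)) h1

end Pool.Agent.H61.WL
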