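import Mathlib.NumberTheory.EulerProduct.Basic
import Mathlib.NumberTheory.SmoothNumbers
import Mathlib.Analysis.SpecialFunctions.Exponential
import Mathlib.Analysis.SpecialFunctions.Pow.NNReal
import Mathlib.NumberTheory.ArithmeticFunction.Misc

/-!
# WILD, chapter L (local density): the coefficients of `exp (∑ b_p p^(-s))`

`ab b n = ∏ b_p^l / l!` over `p^l ‖ n`.
-/

set_option autoImplicit false

namespace Pool.Agent.H61.WL

/-- the coefficient at `n` of `exp (∑ b_p p^(-s))` -/
noncomputable def ab (b : ℕ → ℝ) (n : ℕ) : ℝ := n.factorization.prod fun p l => b p ^ l / (l.factorial : ℝ)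

theorem ab_one (b : ℕ → ℝ) : ab b 1 = 1 := by
  unfold ab
  rw [Nat.factorization_one, Finsupp.prod_zero_index]

theorem ab_nonneg {b : ℕ → ℝ} (hb : ∀ p, 0 ≤ b p) (n : ℕ) : 0 ≤ ab b n := by
  unfold ab
  exact Finset.prod_nonneg fun p _ => div_nonneg (pow_nonneg (hb p) _) (Nat.cast_nonneg _)

theorem ab_mul_coprime (b : ℕ → ℝ) {m n : ℕ} (h : Nat.Coprime m n) : ab b (m * n) = ab b m * ab b n := by
  unfold ab
  rw [Nat.factorization_mul_of_coprime h]
  exact Finsupp.prod_add_index_of_disjoint (by simpa using h.disjoint_primeFactors) _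

theorem ab_prime_pow (b : ℕ → ℝ) {p : ℕ} (hp : p.Prime) (k : ℕ) : ab b (p ^ k) = b p ^ k / (k.factorial : ℝ) := by
  unfold ab
  rw [Nat.Prime.factorization_pow hp, Finsupp.prod_single_index]
  simp

theorem ab_prime (b : ℕ → ℝ) {p : ℕ} (hp : p.Prime) : ab b p = b p := by
  have h := ab_prime_pow b hp 1
  rwa [pow_one, pow_one, Nat.factorial_one, Nat.cast_one, div_one] at h

/-- the product over any set which contains the prime factors -/
theorem ab_eq_prod (b : ℕ → ℝ) {n : ℕ} {S : Finset ℕ} (hS : n.primeFactors ⊆ S) :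
    ab b n = ∏ p ∈ S, b p ^ n.factorization p / ((n.factorization p).factorial : ℝ) := by
  unfold ab
  apply Finsupp.prod_of_support_subset
  · rwa [Nat.support_factorization]
  · intro p _
    simp

theorem ab_mul_le {b : ℕ → ℝ} (hb : ∀ p, 0 ≤ b p) {m n : ℕ} (hm : m ≠ 0) (hn : n ≠ 0) :
    ab b (m * n) ≤ ab b m * ab b n := by
  have hS : (m * n).primeFactors = m.primeFactors ∪ n.primeFactors := Nat.primeFactors_mul hm hn
  rw [ab_eq_prod b (S := (m * n).primeFactors) le_rfl,
    ab_eq_prod b (n := m) (S := (m * n).primeFactors) (by rw [hS]; exact Finset.subset_union_left),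
    ab_eq_prod b (n := n) (S := (m * n).primeFactors) (by rw [hS]; exact Finset.subset_union_right),
    ← Finset.prod_mul_distrib]
  apply Finset.prod_le_prod
  · intro p _
    exact div_nonneg (pow_nonneg (hb p) _) (Nat.cast_nonneg _)
  · intro p _
    rw [Nat.factorization_mul hm hn, Finsupp.add_apply, pow_add, div_mul_div_comm]
    have h1 : ((m.factorization p).factorial : ℝ) * ((n.factorization p).factorial : ℝ) ≤
        ((m.factorization p + n.factorization p).factorial : ℝ) := by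
      have h2 : (m.factorization p).factorial * (n.factorization p).factorial ≤
          (m.factorization p + n.factorization p).factorial :=
        Nat.le_of_dvd (Nat.factorial_pos _) (Nat.factorial_mul_factorial_dvd_factorial_add _ _)
      exact_mod_cast h2
    exact div_le_div_of_nonneg_left (mul_nonneg (pow_nonneg (hb p) _) (pow_nonneg (hb p) _))
      (by positivity) h1

/-- the primes of a number with nonzero coefficient -/
theorem ab_ne_zero {b : ℕ → ℝ} {n : ℕ} (h : ab b n ≠ 0) {p : ℕ} (hp : p.Prime) (hd : p ∣ n) (hn : n ≠ 0) : b p ≠ 0 := by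
  intro h0
  apply h
  rw [ab_eq_prod b (S := n.primeFactors) le_rfl]
  apply Finset.prod_eq_zero (i := p) (Nat.mem_primeFactors.2 ⟨hp, hd, hn⟩)
  rw [h0, zero_pow, zero_div]
  exact (hp.factorization_pos_of_dvd hn hd).ne'

/-- multiplication of `b` by a completely multiplicative function -/
theorem ab_mul_fun (b c : ℕ → ℝ) (n : ℕ) :
    ab (fun p => b p * c p) n = ab b n * n.factorization.prod fun p l => c p ^ l := by
  unfold ab
  rw [← Finsupp.prod_mul]
  apply Finsupp.prod_congr
  intro p _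
  rw [mul_pow, mul_div_right_comm]

theorem ab_mul_rpow (b : ℕ → ℝ) (s : ℝ) {n : ℕ} (hn : n ≠ 0) :
    ab (fun p => b p * (p : ℝ) ^ s) n = ab b n * (n : ℝ) ^ s := by
  rw [ab_mul_fun]
  congr 1
  have h1 : ((n.factorization.prod fun p l => p ^ l : ℕ) : ℝ) = n := by
    exact_mod_cast Nat.prod_factorization_pow_eq_self hn
  have h2 : ((n.factorization.prod fun p l => p ^ l : ℕ) : ℝ) = n.factorization.prod fun p l => ((p : ℝ)) ^ l := by
    rw [Finsupp.prod, Finsupp.prod, Nat.cast_prod]
    exact Finset.prod_congr rfl fun p _ => Nat.cast_pow _ _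
  rw [← h1, h2, Finsupp.prod, Finsupp.prod, ← Real.finsetProd_rpow _ _ (fun p _ => by positivity)]
  apply Finset.prod_congr rfl
  intro p _
  rw [← Real.rpow_natCast, ← Real.rpow_mul (Nat.cast_nonneg _), mul_comm, Real.rpow_mul (Nat.cast_nonneg _),
    Real.rpow_natCast]

theorem ab_mul_two (b : ℕ → ℝ) (n : ℕ) :
    ab (fun p => b p * 2) n = ab b n * 2 ^ (ArithmeticFunction.cardFactors n) := by
  rw [ab_mul_fun]
  congr 1
  rw [ArithmeticFunction.cardFactors_eq_sum_factorization, Finsupp.prod, Finsupp.sum, Finset.prod_pow_eq_pow_sum]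

theorem tsum_ab (b : ℕ → ℝ) {p : ℕ} (hp : p.Prime) : ∑' n : ℕ, ab b (p ^ n) = Real.exp (b p) := by
  rw [Real.exp_eq_exp_ℝ, NormedSpace.exp_eq_tsum_div]
  exact tsum_congr fun n => ab_prime_pow b hp n

theorem hasSum_ab {b : ℕ → ℝ} (N : ℕ) :
    HasSum (fun m : N.smoothNumbers => ab b m) (Real.exp (∑ p ∈ N.primesBelow, b p)) := by
  have h := (EulerProduct.summable_and_hasSum_smoothNumbers_prod_primesBelow_tsum (f := ab b) (ab_one b)
    (fun {m n} h => ab_mul_coprime b h) (fun {p} hp => by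
      have h1 : (fun n : ℕ => ‖ab b (p ^ n)‖) = fun n : ℕ => ‖b p‖ ^ n / (n.factorial : ℝ) := by
        funext n
        rw [ab_prime_pow b hp, norm_div, norm_pow, RCLike.norm_natCast]
      rw [h1]
      exact Real.summable_pow_div_factorial _) N).2
  have h2 : ∏ p ∈ N.primesBelow, ∑' n : ℕ, ab b (p ^ n) = Real.exp (∑ p ∈ N.primesBelow, b p) := by
    rw [Real.exp_sum]
    exact Finset.prod_congr rfl fun p hp => tsum_ab b (Nat.prime_of_mem_primesBelow hp)
  rwa [h2] at h

/-- the sum over a finite set of smooth numbers -/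
theorem sum_ab_le {b : ℕ → ℝ} (hb : ∀ p, 0 ≤ b p) (N : ℕ) (T : Finset ℕ) (hT : ∀ m ∈ T, m ∈ N.smoothNumbers) :
    ∑ m ∈ T, ab b m ≤ Real.exp (∑ p ∈ N.primesBelow, b p) := by
  have h := hasSum_ab (b := b) N
  have h1 := sum_le_hasSum (T.subtype (fun m => m ∈ N.smoothNumbers)) (fun i _ => ab_nonneg hb i) h
  have h2 : ∑ m ∈ T.subtype (fun m => m ∈ N.smoothNumbers), ab b (m : ℕ) = ∑ m ∈ T, ab b m := by
    rw [Finset.sum_subtype_eq_sum_filter, Finset.filter_true_of_mem hT]
  rw [← h2]
  exact h1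

theorem sum_ab_le' {b : ℕ → ℝ} (hb : ∀ p, 0 ≤ b p) (N : ℕ) (T : Finset ℕ) (hT : ∀ m ∈ T, m ∈ N.smoothNumbers)
    (h1 : 1 ∉ T) : ∑ m ∈ T, ab b m ≤ Real.exp (∑ p ∈ N.primesBelow, b p) - 1 := by
  have h := sum_ab_le hb N (insert 1 T) (fun m hm => by
    rcases Finset.mem_insert.1 hm with rfl | hm
    · exact Nat.mem_smoothNumbers'.2 fun p hp hd => absurd (Nat.dvd_one.1 hd) hp.one_lt.ne'
    · exact hT m hm)
  rw [Finset.sum_insert h1, ab_one] at h
  linarith

end Pool.Agent.H61.WL
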