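import Pool.Agent.H61.WL.Gr

/-!
# WILD, chapter L (local density): case 1, a large prime factor
-/

set_option autoImplicit false

namespace Pool.Agent.H61.WL

open Real

private theorem inner {b : ℕ → ℝ} {P : ℕ} {β A δ : ℝ} (h : Dn b P β A δ) (hβ : 0 ≤ β)
    {x a c y : ℝ} (hx : 2 ≤ x) (hxa : x ≤ a) (hac : a ≤ c) (hcx : c ≤ 2 * x) (hy : 4 ≤ y)
    (hJ : ∀ z : ℝ, y / 2 < z → z ≤ x → z ^ (1 - δ) ≤ (c - a) * (z / x)) {m : ℕ} (hm : 1 ≤ m)
    (g1 : log x ≤ (ArithmeticFunction.cardFactors m + 1) * log (c / m)) (g2 : y < c / m) :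
    ∑ p ∈ Finset.Ioc ⌊a / m⌋₊ ⌊c / m⌋₊, b p ≤
      16 * β * (c - a) / log x ^ 2 * (2 ^ ArithmeticFunction.cardFactors m * (m : ℝ) ^ (-1 : ℝ)) := by
  have hm0 : (0 : ℝ) < m := by exact_mod_cast hm
  have hm1 : (1 : ℝ) ≤ m := by exact_mod_cast hm
  have hx0 : (0 : ℝ) < x := by linarith
  obtain ⟨z, hz⟩ : ∃ z, z = x / m := ⟨_, rfl⟩
  have hcz : c / m ≤ 2 * z := by
    rw [hz, ← mul_div_assoc]
    exact div_le_div_of_nonneg_right hcx hm0.le
  have hzy : y / 2 < z := by linarith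
  have hz2 : 2 ≤ z := by linarith
  have hzx : z ≤ x := by
    rw [hz]
    exact div_le_self hx0.le hm1
  have h1 := h.H1 z (a / m) (c / m) hz2 (by rw [hz]; exact div_le_div_of_nonneg_right hxa hm0.le) hcz (by
    have h2 := hJ z hzy hzx
    have h3 : (c - a) * (z / x) = c / m - a / m := by
      rw [hz]
      field_simp
    rwa [h3] at h2)
  have hlz : 0 < log z := log_pos (by linarith)
  have hlx : 0 < log x := log_pos (by linarith)
  obtain ⟨k, hk⟩ : ∃ k, k = ArithmeticFunction.cardFactors m := ⟨_, rfl⟩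
  rw [← hk] at g1 ⊢
  have hk0 : (0 : ℝ) ≤ k := Nat.cast_nonneg _
  have h4 : log x ≤ (k + 1) * (2 * log z) := by
    refine g1.trans (mul_le_mul_of_nonneg_left ?_ (by linarith))
    calc log (c / m) ≤ log (2 * z) := log_le_log (by linarith) hcz
      _ = log 2 + log z := log_mul (by norm_num) (by linarith)
      _ ≤ 2 * log z := by linarith [log_le_log (by norm_num) hz2]
  have h5 : log x ^ 2 ≤ 16 * 2 ^ k * log z ^ 2 := by
    have h6 : ((k + 1 : ℕ) : ℝ) ^ 2 ≤ 4 * 2 ^ k := by exact_mod_cast sq_le_pow_two k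
    push_cast at h6
    calc log x ^ 2 ≤ ((k + 1) * (2 * log z)) ^ 2 := pow_le_pow_left₀ hlx.le h4 2
      _ = (k + 1 : ℝ) ^ 2 * (4 * log z ^ 2) := by ring
      _ ≤ (4 * 2 ^ k) * (4 * log z ^ 2) := mul_le_mul_of_nonneg_right h6 (by positivity)
      _ = _ := by ring
  refine h1.trans ?_
  have e1 : c / m - a / m = (c - a) * (m : ℝ) ^ (-1 : ℝ) := by
    rw [rpow_neg_one]
    ring
  have hca : 0 ≤ c - a := by linarith
  rw [e1]
  rw [show 16 * β * (c - a) / log x ^ 2 * (2 ^ k * (m : ℝ) ^ (-1 : ℝ)) =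
    (β * ((c - a) * (m : ℝ) ^ (-1 : ℝ))) * (16 * 2 ^ k / log x ^ 2) by ring,
    show β * ((c - a) * (m : ℝ) ^ (-1 : ℝ)) / log z ^ 2 = (β * ((c - a) * (m : ℝ) ^ (-1 : ℝ))) * (1 / log z ^ 2) by ring]
  apply mul_le_mul_of_nonneg_left _ (by positivity)
  rw [div_le_div_iff₀ (by positivity) (by positivity), one_mul]
  exact h5

theorem case1 {b : ℕ → ℝ} {P : ℕ} {β A δ : ℝ} (h : Dn b P β A δ) (hδ : 0 < δ) (hβ : 0 ≤ β) (hP : 3 ≤ P)
    {x a c y : ℝ} (hx : 2 ≤ x) (hxa : x ≤ a) (hac : a ≤ c) (hcx : c ≤ 2 * x) (hy : 4 ≤ y)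
    (hJ : ∀ z : ℝ, y / 2 < z → z ≤ x → z ^ (1 - δ) ≤ (c - a) * (z / x)) {S : Finset ℕ}
    (hS : ∀ n ∈ S, a < n ∧ (n : ℝ) ≤ c ∧ 2 ≤ ArithmeticFunction.cardFactors n ∧ ∃ p, p.Prime ∧ p ∣ n ∧ y < (p : ℝ)) :
    ∑ n ∈ S, ab b n ≤ 16 * β * (c - a) / log x ^ 2 * (exp (20 * β / √(log P)) - 1) := by
  classical
  have hx0 : (0 : ℝ) < x := by linarith
  obtain ⟨t, ht⟩ : ∃ t : Finset (Σ _ : ℕ, ℕ), t = (Finset.Icc 2 ⌊c⌋₊).sigma (fun m =>
    if log x ≤ (ArithmeticFunction.cardFactors m + 1) * log (c / m) ∧ y < c / m then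
      Finset.Ioc ⌊a / m⌋₊ ⌊c / m⌋₊ else ∅) := ⟨_, rfl⟩
  have key : ∀ n ∈ S, 2 ≤ n ∧ gp n * (n / gp n) = n ∧ 2 ≤ n / gp n ∧
      log x ≤ (ArithmeticFunction.cardFactors (n / gp n) + 1) * log (c / (n / gp n : ℕ)) ∧ y < c / (n / gp n : ℕ) ∧
      a / (n / gp n : ℕ) < gp n ∧ (gp n : ℝ) ≤ c / (n / gp n : ℕ) := by
    intro n hn
    obtain ⟨n1, n2, n3, p, hp, hpn, hyp⟩ := hS n hn
    have hn0 : n ≠ 0 := by
      rintro rfl
      simp at n3
    have hn1 : n ≠ 1 := by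
      rintro rfl
      simp at n3
    have hn2 : 2 ≤ n := by omega
    obtain ⟨g1, g2, g3⟩ := gp_spec hn2
    have e : gp n * (n / gp n) = n := Nat.mul_div_cancel' g2
    obtain ⟨m, hm⟩ : ∃ m, m = n / gp n := ⟨_, rfl⟩
    rw [← hm] at e ⊢
    have hm0 : m ≠ 0 := by
      rintro rfl
      exact hn0 (by rw [← e, mul_zero])
    have hΩ : ArithmeticFunction.cardFactors n = ArithmeticFunction.cardFactors m + 1 := by
      rw [← e, ArithmeticFunction.cardFactors_mul g1.ne_zero hm0, ArithmeticFunction.cardFactors_apply_prime g1, add_comm]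
    have hm1 : m ≠ 1 := by
      rintro rfl
      rw [hΩ, ArithmeticFunction.cardFactors_one] at n3
      omega
    have hmr : (0 : ℝ) < m := by exact_mod_cast Nat.pos_of_ne_zero hm0
    have er : (gp n : ℝ) * m = n := by exact_mod_cast e
    have h1 : (gp n : ℝ) ≤ c / m := by
      rw [le_div_iff₀ hmr, er]
      exact n2
    have h2 : a / m < gp n := by
      rw [div_lt_iff₀ hmr, er]
      exact n1
    have hgy : y < gp n := lt_of_lt_of_le hyp (by exact_mod_cast g3 p hp hpn)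
    refine ⟨hn2, e, by omega, ?_, lt_of_lt_of_le hgy h1, h2, h1⟩
    have hgpos : (0 : ℝ) < gp n := by exact_mod_cast g1.pos
    have h3 : (n : ℝ) ≤ (gp n : ℝ) ^ (ArithmeticFunction.cardFactors m + 1) := by
      rw [← hΩ]
      exact_mod_cast le_pow_cardFactors hn0 g3
    calc log x ≤ log n := log_le_log hx0 (by linarith)
      _ ≤ log ((gp n : ℝ) ^ (ArithmeticFunction.cardFactors m + 1)) :=
        log_le_log (by exact_mod_cast Nat.pos_of_ne_zero hn0) h3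
      _ = (ArithmeticFunction.cardFactors m + 1) * log (gp n) := by
        rw [log_pow]
        push_cast
        ring
      _ ≤ (ArithmeticFunction.cardFactors m + 1) * log (c / m) := by
        apply mul_le_mul_of_nonneg_left (log_le_log hgpos h1)
        positivity
  have h1 : ∑ n ∈ S, ab b n ≤ ∑ k ∈ t, ab b k.1 * b k.2 := by
    apply sum_le_of_inj S t (fun n => ⟨n / gp n, gp n⟩)
    · intro n hn n' hn' he
      simp only [Sigma.mk.injEq, heq_eq_eq] at he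
      rw [← (key n hn).2.1, ← (key n' hn').2.1, he.1, he.2]
    · intro n hn
      obtain ⟨k1, k2, k3, k4, k5, k6, k7⟩ := key n hn
      rw [ht, Finset.mem_sigma]
      refine ⟨?_, ?_⟩
      · rw [Finset.mem_Icc]
        refine ⟨k3, ?_⟩
        show n / gp n ≤ ⌊c⌋₊
        exact (Nat.div_le_self _ _).trans ((Nat.le_floor_iff (by linarith)).2 (hS n hn).2.1)
      · show gp n ∈ if _ then _ else _
        rw [if_pos ⟨k4, k5⟩, Finset.mem_Ioc]
        refine ⟨(Nat.floor_lt (div_nonneg (by linarith) (Nat.cast_nonneg _))).2 k6,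
          (Nat.le_floor_iff (div_nonneg (by linarith) (Nat.cast_nonneg _))).2 k7⟩
    · intro k _
      exact mul_nonneg (ab_nonneg h.nn _) (h.nn _)
    · intro n hn
      obtain ⟨k1, k2, k3, -⟩ := key n hn
      obtain ⟨g1, g2, g3⟩ := gp_spec k1
      show ab b n ≤ ab b (n / gp n) * b (gp n)
      calc ab b n = ab b (gp n * (n / gp n)) := by rw [k2]
        _ ≤ ab b (gp n) * ab b (n / gp n) := ab_mul_le h.nn g1.ne_zero (by omega)
        _ = ab b (n / gp n) * b (gp n) := by rw [ab_prime b g1, mul_comm]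
  refine h1.trans ?_
  rw [ht, Finset.sum_sigma]
  have hC : 0 ≤ 16 * β * (c - a) / log x ^ 2 := by
    have : 0 ≤ c - a := by linarith
    positivity
  have h2 : ∀ m ∈ Finset.Icc 2 ⌊c⌋₊, ∑ p ∈ (if log x ≤ (ArithmeticFunction.cardFactors m + 1) * log (c / m) ∧ y < c / m then
      Finset.Ioc ⌊a / m⌋₊ ⌊c / m⌋₊ else ∅), ab b m * b p ≤
      16 * β * (c - a) / log x ^ 2 * ab (fun p => b p * 2 * (p : ℝ) ^ (-1 : ℝ)) m := by
    intro m hm
    have hm2 := (Finset.mem_Icc.1 hm).1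
    rw [ab_mul_rpow (fun p => b p * 2) (-1) (by omega : m ≠ 0), ab_mul_two]
    by_cases hg : log x ≤ (ArithmeticFunction.cardFactors m + 1) * log (c / m) ∧ y < c / m
    · rw [if_pos hg, ← Finset.mul_sum]
      calc ab b m * ∑ p ∈ Finset.Ioc ⌊a / m⌋₊ ⌊c / m⌋₊, b p ≤ ab b m *
            (16 * β * (c - a) / log x ^ 2 * (2 ^ ArithmeticFunction.cardFactors m * (m : ℝ) ^ (-1 : ℝ))) :=
          mul_le_mul_of_nonneg_left (inner h hβ hx hxa hac hcx hy hJ (by omega) hg.1 hg.2) (ab_nonneg h.nn m)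
        _ = _ := by ring
    · rw [if_neg hg, Finset.sum_empty]
      have := ab_nonneg h.nn m
      positivity
  refine (Finset.sum_le_sum h2).trans ?_
  rw [← Finset.mul_sum]
  apply mul_le_mul_of_nonneg_left _ hC
  have hnn : ∀ p : ℕ, 0 ≤ b p * 2 * (p : ℝ) ^ (-1 : ℝ) := fun p =>
    mul_nonneg (mul_nonneg (h.nn p) (by norm_num)) (rpow_nonneg (Nat.cast_nonneg _) _)
  refine (sum_ab_le' hnn (⌊c⌋₊ + 1) _ (fun m hm => ?_) (fun h1 => ?_)).trans ?_
  · have := Finset.mem_Icc.1 hm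
    exact Nat.mem_smoothNumbers_of_lt (by omega) (by omega)
  · have := Finset.mem_Icc.1 h1
    omega
  · have h3 := h.theta' hδ hβ hP ((⌊c⌋₊ + 1).primesBelow)
    have h4 : ∑ p ∈ (⌊c⌋₊ + 1).primesBelow, b p * 2 * (p : ℝ) ^ (-1 : ℝ) ≤ 20 * β / √(log P) := by
      calc ∑ p ∈ (⌊c⌋₊ + 1).primesBelow, b p * 2 * (p : ℝ) ^ (-1 : ℝ) = 2 * ∑ p ∈ (⌊c⌋₊ + 1).primesBelow, b p / p := by
            rw [Finset.mul_sum]
            apply Finset.sum_congr rfl
            intro p _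
            rw [rpow_neg_one]
            ring
        _ ≤ 2 * (10 * β / √(log P)) := by linarith
        _ = _ := by ring
    linarith [exp_le_exp.2 h4]

end Pool.Agent.H61.WL
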