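import Pool.Agent.H61.WL.Gr

/-!
# WILD, chapter L (local density): case 2, no large prime factor
-/

set_option autoImplicit false

namespace Pool.Agent.H61.WL

open Real

private theorem num {v l : ℝ} (hv : 128 ≤ v) (hl : 2 ≤ l) : v ^ 2 * exp (5 / 2 * l - v * l / 8) ≤ 1 := by
  obtain ⟨w, hw⟩ : ∃ w, w = v / 4 - 5 := ⟨_, rfl⟩
  have hw27 : 27 ≤ w := by rw [hw]; linarith
  have hvw : v = 4 * (w + 5) := by rw [hw]; ring
  have h1 : 5 / 2 * l - v * l / 8 ≤ -w := by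
    have h2 : (v / 8 - 5 / 2) * 2 ≤ (v / 8 - 5 / 2) * l := mul_le_mul_of_nonneg_left hl (by linarith)
    rw [hw]
    linarith
  have h3 : v ≤ (1 + w / 6) ^ 3 := by
    rw [hvw]
    have h4 : 0 ≤ (w + 6) * ((w + 6) ^ 2 - 864) := mul_nonneg (by linarith) (by nlinarith)
    nlinarith
  have h5 : v ^ 2 ≤ exp w := by
    calc v ^ 2 ≤ ((1 + w / 6) ^ 3) ^ 2 := pow_le_pow_left₀ (by linarith) h3 2
      _ = (1 + w / 6) ^ 6 := by ring
      _ ≤ exp (w / 6) ^ 6 := pow_le_pow_left₀ (by linarith) (by linarith [add_one_le_exp (w / 6)]) 6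
      _ = exp w := by
        rw [← exp_nat_mul]
        congr 1
        push_cast
        ring
  calc v ^ 2 * exp (5 / 2 * l - v * l / 8) ≤ exp w * exp (-w) :=
        mul_le_mul h5 (exp_le_exp.2 h1) (exp_pos _).le (exp_pos _).le
    _ = 1 := by rw [← exp_add, add_neg_cancel, exp_zero]

private theorem fin {q : ℕ} (hq : 16 ≤ q) (hl : 2 ≤ log (log q)) {x : ℝ} (hx : 0 < x) (hqx : log q ≤ log x / 128) :
    log x ^ 2 * (√(log q) * x ^ (-(kap q / 8))) ≤ 1 := by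
  have hL := log_pos' hq
  obtain ⟨l, hll⟩ : ∃ l, l = log (log q) := ⟨_, rfl⟩
  rw [← hll] at hl
  have hLl : log q = exp l := by rw [hll, exp_log hL]
  obtain ⟨v, hv⟩ : ∃ v, v = log x / log q := ⟨_, rfl⟩
  have hv128 : 128 ≤ v := by
    rw [hv, le_div_iff₀ hL]
    linarith
  have hX : log x = v * exp l := by
    rw [hv, ← hLl]
    field_simp
  have e1 : √(log q) = exp (l / 2) := by
    rw [hLl, sqrt_eq_rpow, ← exp_mul]
    congr 1
    ring
  have e2 : x ^ (-(kap q / 8)) = exp (-(v * l / 8)) := by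
    rw [rpow_def_of_pos hx, hX]
    congr 1
    unfold kap
    rw [← hll, hLl]
    have := (exp_pos l).ne'
    field_simp
  rw [e1, e2, hX]
  have e3 : (v * exp l) ^ 2 * (exp (l / 2) * exp (-(v * l / 8))) = v ^ 2 * exp (5 / 2 * l - v * l / 8) := by
    rw [mul_pow, ← exp_nat_mul, mul_assoc, ← exp_add, ← exp_add]
    congr 2
    push_cast
    ring
  rw [e3]
  exact num hv128 hl

private theorem card_le {a c : ℝ} (ha : 0 ≤ a) (hac : a ≤ c) : ((Finset.Ioc ⌊a⌋₊ ⌊c⌋₊).card : ℝ) ≤ c - a + 1 := by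
  rw [Nat.card_Ioc, Nat.cast_sub (Nat.floor_le_floor hac)]
  linarith [Nat.floor_le (ha.trans hac), Nat.lt_floor_add_one a]

private theorem smooth_sum {b : ℕ → ℝ} {P : ℕ} {β A δ : ℝ} (h : Dn b P β A δ) (hδ : 0 < δ) (hβ : 0 ≤ β) (hP : 16 ≤ P)
    {q : ℕ} (T : Finset ℕ) (hT : ∀ m ∈ T, m ∈ (q + 1).smoothNumbers) :
    ∑ m ∈ T, ab b m * (m : ℝ) ^ (kap q / 2 - 1) ≤ exp (10 * β / √(log P)) := by
  have h1 : ∀ m ∈ T, ab b m * (m : ℝ) ^ (kap q / 2 - 1) = ab (fun p => b p * (p : ℝ) ^ (kap q / 2 - 1)) m :=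
    fun m hm => (ab_mul_rpow b _ (Nat.ne_zero_of_mem_smoothNumbers (hT m hm))).symm
  rw [Finset.sum_congr rfl h1]
  refine (sum_ab_le (fun p => mul_nonneg (h.nn p) (rpow_nonneg (Nat.cast_nonneg _) _)) (q + 1) T hT).trans ?_
  apply exp_le_exp.2
  refine le_trans (Finset.sum_le_sum fun p hp => ?_) (h.theta hδ hβ (by omega) ((q + 1).primesBelow))
  by_cases h0 : b p = 0
  · rw [h0, zero_mul, zero_mul, zero_div]
  · have hpP := (h.supp p h0).2
    have hpq : p ≤ q := by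
      have := Nat.lt_of_mem_primesBelow hp
      omega
    have hp0 : (0 : ℝ) < p := by exact_mod_cast (by omega : 0 < p)
    rw [mul_div_assoc]
    apply mul_le_mul_of_nonneg_left _ (h.nn p)
    rw [rpow_sub hp0, rpow_one]
    apply div_le_div_of_nonneg_right _ hp0.le
    rw [sqrt_eq_rpow, show kap q / 2 = 1 / 2 * kap q by ring]
    exact rpow_le_log (by omega) hpq (by norm_num)

theorem case2 {b : ℕ → ℝ} {P : ℕ} {β A δ : ℝ} (h : Dn b P β A δ) (hδ : 0 < δ) (hβ : 0 ≤ β) (hA : 0 ≤ A) (hP : 16 ≤ P)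
    (hPl : 2 ≤ log (log P)) {x a c η τ : ℝ} (hx : 2 ≤ x) (hxa : x ≤ a) (hac : a ≤ c) (hcx : c ≤ 2 * x)
    (hη : 0 < η) (hτ : 0 < τ) (hτ1 : τ ≤ 1 / 128) (hητ : 2 * η + τ ≤ 1 / 2) (hAη : (2 * η + τ) * A ≤ 1 / 8)
    (hxη : 2 ≤ x ^ η) (hlen : x ^ (1 - η) ≤ c - a) {S : Finset ℕ}
    (hS : ∀ n ∈ S, a < n ∧ (n : ℝ) ≤ c ∧ ∀ p, p.Prime → p ∣ n → (p : ℝ) ≤ x ^ τ) :
    ∑ n ∈ S, ab b n ≤ 2 * (c - a) / log x ^ 2 * exp (10 * β / √(log P)) * (10 * β / √(log P)) := by
  classical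
  have hx0 : (0 : ℝ) < x := by linarith
  have hx1 : (1 : ℝ) ≤ x := by linarith
  have hlx : 0 < log x := log_pos (by linarith)
  have hca : 0 ≤ c - a := by linarith
  have hmono : ∀ {s t : ℝ}, s ≤ t → x ^ s ≤ x ^ t := fun h => rpow_le_rpow_of_exponent_le hx1 h
  have hone : ∀ {s : ℝ}, 0 ≤ s → 1 ≤ x ^ s := fun h => one_le_rpow hx1 h
  -- the decomposition
  have dec : ∀ n ∈ S, ab b n ≠ 0 → ∃ q m k : ℕ, q * m * k = n ∧ P < q ∧ (q : ℝ) ≤ x ^ τ ∧ m ∈ (q + 1).smoothNumbers ∧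
      x ^ (1 / 2 : ℝ) ≤ q * m ∧ (q * m : ℝ) ≤ 2 * x ^ (1 - 2 * η) ∧ a / (q * m) < k ∧ (k : ℝ) ≤ c / (q * m) ∧
      ab b n ≤ b q * ab b m * (x ^ (2 * η + τ)) ^ (A * kap q) := by
    intro n hn hne
    obtain ⟨n1, n2, n3⟩ := hS n hn
    have hnr : x < n := lt_of_le_of_lt hxa n1
    have hn0 : n ≠ 0 := by
      rintro rfl
      rw [Nat.cast_zero] at hnr
      linarith
    have hD1 : 1 ≤ x ^ (2 * η) := hone (by linarith)
    have hDn : x ^ (2 * η) ≤ n := by
      calc x ^ (2 * η) ≤ x ^ (1 : ℝ) := hmono (by linarith)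
        _ = x := rpow_one x
        _ ≤ n := hnr.le
    obtain ⟨u, k, e1, e2, e3, e4⟩ := greedy (hone hτ.le) n hn0 n3 _ hD1 hDn
    have hu0 : u ≠ 0 := by
      rintro rfl
      exact hn0 (by rw [← e1, zero_mul])
    have hk0 : k ≠ 0 := by
      rintro rfl
      exact hn0 (by rw [← e1, mul_zero])
    have hkr : (0 : ℝ) < k := by exact_mod_cast Nat.pos_of_ne_zero hk0
    have hur : (0 : ℝ) < u := by exact_mod_cast Nat.pos_of_ne_zero hu0
    have er : (u : ℝ) * k = n := by exact_mod_cast e1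
    have hk3 : (k : ℝ) ≤ x ^ (2 * η + τ) := by
      rw [rpow_add hx0]
      exact e3
    have hu1 : x ^ (1 / 2 : ℝ) ≤ u := by
      have h1 : x ^ (1 / 2 : ℝ) * k ≤ u * k := by
        calc x ^ (1 / 2 : ℝ) * k ≤ x ^ (1 / 2 : ℝ) * x ^ (1 / 2 : ℝ) :=
              mul_le_mul_of_nonneg_left (hk3.trans (hmono hητ)) (rpow_nonneg hx0.le _)
          _ = x := by rw [← rpow_add hx0, add_halves, rpow_one]
          _ ≤ u * k := by rw [er]; exact hnr.le
      exact le_of_mul_le_mul_right h1 hkr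
    have hu2 : 2 ≤ u := by
      have h1 : (1 : ℝ) < u := lt_of_lt_of_le (one_lt_rpow (by linarith) (by norm_num)) hu1
      have h2 : 1 < u := by exact_mod_cast h1
      omega
    have hu3 : (u : ℝ) ≤ 2 * x ^ (1 - 2 * η) := by
      have h1 : (u : ℝ) * x ^ (2 * η) ≤ 2 * x ^ (1 - 2 * η) * x ^ (2 * η) := by
        calc (u : ℝ) * x ^ (2 * η) ≤ u * k := mul_le_mul_of_nonneg_left e2 hur.le
          _ = n := er
          _ ≤ 2 * x := by linarith
          _ = 2 * x ^ (1 - 2 * η) * x ^ (2 * η) := by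
            rw [mul_assoc, ← rpow_add hx0, sub_add_cancel, rpow_one]
      exact le_of_mul_le_mul_right h1 (rpow_pos_of_pos hx0 _)
    obtain ⟨g1, g2, g3⟩ := gp_spec hu2
    obtain ⟨m, hm⟩ := g2
    have hm0 : m ≠ 0 := by
      rintro rfl
      exact hu0 (by rw [hm, mul_zero])
    have hmr : (gp u : ℝ) * m = u := by exact_mod_cast hm.symm
    have hgn : gp u ∣ n := by
      have hgu : gp u ∣ u := ⟨m, hm⟩
      rw [← e1]
      exact hgu.mul_right k
    have hbq : b (gp u) ≠ 0 := ab_ne_zero hne g1 hgn hn0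
    have hPq : P < gp u := (h.supp _ hbq).2
    refine ⟨gp u, m, k, by rw [← hm, e1], hPq, n3 _ g1 hgn, ?_, ?_, ?_, ?_, ?_, ?_⟩
    · rw [Nat.mem_smoothNumbers']
      intro p hp hd
      have := g3 p hp (by rw [hm]; exact hd.mul_left _)
      omega
    · rw [hmr]
      exact hu1
    · rw [hmr]
      exact hu3
    · rw [hmr, div_lt_iff₀ hur, mul_comm, er]
      exact n1
    · rw [hmr, le_div_iff₀ hur, mul_comm, er]
      exact n2
    · have h1 : ab b n ≤ ab b u * ab b k := by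
        rw [← e1]
        exact ab_mul_le h.nn hu0 hk0
      have h2 : ab b u ≤ b (gp u) * ab b m := by
        have h3 := ab_mul_le h.nn g1.ne_zero hm0
        rwa [← hm, ab_prime b g1] at h3
      have h4 : ab b k ≤ (x ^ (2 * η + τ)) ^ (A * kap (gp u)) := by
        refine (h.ab_le hA hk0 (q := gp u) (by omega) (fun p hp hd => e4 (gp u) p g1 hp ⟨m, hm⟩ hd)).trans ?_
        exact rpow_le_rpow hkr.le hk3 (mul_nonneg hA (kap_pos (by omega)).le)
      exact h1.trans (mul_le_mul h2 h4 (ab_nonneg h.nn _) (mul_nonneg (h.nn _) (ab_nonneg h.nn _)))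
  choose! fq fm fk hdec using dec
  obtain ⟨t, ht⟩ : ∃ t : Finset (Σ _ : ℕ, Σ _ : ℕ, ℕ), t = (Finset.Ioc P ⌊x ^ τ⌋₊).sigma (fun q =>
    ((Finset.Icc 1 ⌊c⌋₊).filter (fun m => m ∈ (q + 1).smoothNumbers ∧ x ^ (1 / 2 : ℝ) ≤ q * m ∧
      (q * m : ℝ) ≤ 2 * x ^ (1 - 2 * η))).sigma (fun m => Finset.Ioc ⌊a / (q * m)⌋₊ ⌊c / (q * m)⌋₊)) := ⟨_, rfl⟩
  have h1 : ∑ n ∈ S, ab b n = ∑ n ∈ S.filter (fun n => ab b n ≠ 0), ab b n := (Finset.sum_filter_ne_zero S).symm
  have h2 : ∑ n ∈ S.filter (fun n => ab b n ≠ 0), ab b n ≤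
      ∑ k ∈ t, b k.1 * ab b k.2.1 * (x ^ (2 * η + τ)) ^ (A * kap k.1) := by
    apply sum_le_of_inj _ t (fun n => ⟨fq n, ⟨fm n, fk n⟩⟩)
    · intro n hn n' hn' he
      simp only [Sigma.mk.injEq, heq_eq_eq] at he
      obtain ⟨a1, a2⟩ := Finset.mem_filter.1 hn
      obtain ⟨b1, b2⟩ := Finset.mem_filter.1 hn'
      rw [← (hdec n a1 a2).1, ← (hdec n' b1 b2).1, he.1, he.2.1, he.2.2]
    · intro n hn
      obtain ⟨a1, a2⟩ := Finset.mem_filter.1 hn
      obtain ⟨d1, d2, d3, d4, d5, d6, d7, d8, -⟩ := hdec n a1 a2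
      have hq0 : 0 < fq n := by omega
      have hm0 : 0 < fm n := Nat.pos_of_ne_zero (Nat.ne_zero_of_mem_smoothNumbers d4)
      have hn0 : n ≠ 0 := by
        rintro rfl
        have := (hS _ a1).1
        rw [Nat.cast_zero] at this
        linarith
      have hk0 : 0 < fk n := by
        rcases Nat.eq_zero_or_pos (fk n) with h0 | h0
        · rw [h0, mul_zero] at d1
          exact absurd d1.symm hn0
        · exact h0
      rw [ht, Finset.mem_sigma]
      refine ⟨?_, ?_⟩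
      · rw [Finset.mem_Ioc]
        exact ⟨d2, (Nat.le_floor_iff (rpow_nonneg hx0.le _)).2 d3⟩
      · rw [Finset.mem_sigma]
        refine ⟨?_, ?_⟩
        · rw [Finset.mem_filter, Finset.mem_Icc]
          refine ⟨⟨hm0, ?_⟩, d4, d5, d6⟩
          have h3 : fm n ≤ n := by
            calc fm n ≤ fq n * fm n := Nat.le_mul_of_pos_left _ hq0
              _ ≤ fq n * fm n * fk n := Nat.le_mul_of_pos_right _ hk0
              _ = n := d1
          exact h3.trans ((Nat.le_floor_iff (by linarith)).2 (hS n a1).2.1)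
        · rw [Finset.mem_Ioc]
          exact ⟨(Nat.floor_lt (div_nonneg (by linarith) (by positivity))).2 d7,
            (Nat.le_floor_iff (div_nonneg (by linarith) (by positivity))).2 d8⟩
    · intro k _
      exact mul_nonneg (mul_nonneg (h.nn _) (ab_nonneg h.nn _)) (rpow_nonneg (rpow_nonneg hx0.le _) _)
    · intro n hn
      obtain ⟨a1, a2⟩ := Finset.mem_filter.1 hn
      exact (hdec n a1 a2).2.2.2.2.2.2.2.2
  rw [h1]
  refine h2.trans ?_
  rw [ht, Finset.sum_sigma]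
  have hqsum : ∀ q ∈ Finset.Ioc P ⌊x ^ τ⌋₊,
      ∑ k ∈ ((Finset.Icc 1 ⌊c⌋₊).filter (fun m => m ∈ (q + 1).smoothNumbers ∧ x ^ (1 / 2 : ℝ) ≤ q * m ∧
        (q * m : ℝ) ≤ 2 * x ^ (1 - 2 * η))).sigma (fun m => Finset.Ioc ⌊a / (q * m)⌋₊ ⌊c / (q * m)⌋₊),
        b q * ab b k.1 * (x ^ (2 * η + τ)) ^ (A * kap q) ≤
      2 * (c - a) / log x ^ 2 * exp (10 * β / √(log P)) * (b q / q) := by
    intro q hq
    obtain ⟨q1, q2⟩ := Finset.mem_Ioc.1 hq
    have hq16 : 16 ≤ q := by omega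
    have hq0 : (0 : ℝ) < q := by exact_mod_cast (by omega : 0 < q)
    have hqx : (q : ℝ) ≤ x ^ τ := (Nat.le_floor_iff (rpow_nonneg hx0.le _)).1 q2
    have hkap := kap_pos hq16
    rw [Finset.sum_sigma]
    have hm : ∀ m ∈ (Finset.Icc 1 ⌊c⌋₊).filter (fun m => m ∈ (q + 1).smoothNumbers ∧ x ^ (1 / 2 : ℝ) ≤ q * m ∧
        (q * m : ℝ) ≤ 2 * x ^ (1 - 2 * η)),
        ∑ _k ∈ Finset.Ioc ⌊a / (q * m)⌋₊ ⌊c / (q * m)⌋₊, b q * ab b m * (x ^ (2 * η + τ)) ^ (A * kap q) ≤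
        2 * (c - a) * (b q / q) * (√(log q) * x ^ (-(kap q / 8))) * (ab b m * (m : ℝ) ^ (kap q / 2 - 1)) := by
      intro m hm
      rw [Finset.mem_filter, Finset.mem_Icc] at hm
      obtain ⟨⟨m1, -⟩, -, m2, m3⟩ := hm
      have hm0 : (0 : ℝ) < m := by exact_mod_cast (by omega : 0 < m)
      have hqm : (0 : ℝ) < q * m := mul_pos hq0 hm0
      rw [Finset.sum_const, nsmul_eq_mul]
      have c1 : ((Finset.Ioc ⌊a / (q * m)⌋₊ ⌊c / (q * m)⌋₊).card : ℝ) ≤ 2 * (c - a) / (q * m) := by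
        refine (card_le (div_nonneg (by linarith) hqm.le) (div_le_div_of_nonneg_right hac hqm.le)).trans ?_
        have c2 : 1 ≤ (c - a) / (q * m) := by
          rw [one_le_div hqm]
          calc (q * m : ℝ) ≤ 2 * x ^ (1 - 2 * η) := m3
            _ ≤ x ^ η * x ^ (1 - 2 * η) := mul_le_mul_of_nonneg_right hxη (rpow_nonneg hx0.le _)
            _ = x ^ (1 - η) := by
              rw [← rpow_add hx0]
              congr 1
              ring
            _ ≤ c - a := hlen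
        rw [← sub_div]
        calc (c - a) / (q * m) + 1 ≤ (c - a) / (q * m) + (c - a) / (q * m) := by linarith
          _ = 2 * (c - a) / (q * m) := by ring
      have c3 : (1 : ℝ) ≤ (q * m) ^ (kap q / 2) * x ^ (-(kap q / 4)) := by
        have c4 : x ^ (kap q / 4) ≤ (q * m : ℝ) ^ (kap q / 2) := by
          calc x ^ (kap q / 4) = (x ^ (1 / 2 : ℝ)) ^ (kap q / 2) := by
                rw [← rpow_mul hx0.le]
                congr 1
                ring
            _ ≤ (q * m : ℝ) ^ (kap q / 2) := rpow_le_rpow (rpow_nonneg hx0.le _) m2 (by linarith)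
        rw [rpow_neg hx0.le, ← div_eq_mul_inv, one_le_div (rpow_pos_of_pos hx0 _)]
        exact c4
      have c5 : (x ^ (2 * η + τ)) ^ (A * kap q) ≤ x ^ (kap q / 8) := by
        rw [← rpow_mul hx0.le]
        apply hmono
        calc (2 * η + τ) * (A * kap q) = ((2 * η + τ) * A) * kap q := by ring
          _ ≤ 1 / 8 * kap q := mul_le_mul_of_nonneg_right hAη hkap.le
          _ = kap q / 8 := by ring
      have hb := h.nn q
      have ham := ab_nonneg h.nn m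
      have e1 : (q : ℝ) ^ (kap q / 2) = √(log q) := by
        rw [show kap q / 2 = 1 / 2 * kap q by ring, rpow_kap hq16, sqrt_eq_rpow]
      calc ((Finset.Ioc ⌊a / (q * m)⌋₊ ⌊c / (q * m)⌋₊).card : ℝ) * (b q * ab b m * (x ^ (2 * η + τ)) ^ (A * kap q))
          ≤ (2 * (c - a) / (q * m)) * (b q * ab b m * x ^ (kap q / 8)) := by gcongr
        _ = (2 * (c - a) / (q * m)) * (b q * ab b m * x ^ (kap q / 8)) * 1 := (mul_one _).symm
        _ ≤ (2 * (c - a) / (q * m)) * (b q * ab b m * x ^ (kap q / 8)) *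
            ((q * m) ^ (kap q / 2) * x ^ (-(kap q / 4))) := mul_le_mul_of_nonneg_left c3 (by positivity)
        _ = _ := by
          rw [mul_rpow hq0.le hm0.le, e1, rpow_sub hm0, rpow_one,
            show -(kap q / 8) = kap q / 8 + -(kap q / 4) by ring, rpow_add hx0]
          field_simp
    refine (Finset.sum_le_sum hm).trans ?_
    rw [← Finset.mul_sum]
    have s1 := smooth_sum h hδ hβ hP (q := q) ((Finset.Icc 1 ⌊c⌋₊).filter (fun m => m ∈ (q + 1).smoothNumbers ∧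
      x ^ (1 / 2 : ℝ) ≤ q * m ∧ (q * m : ℝ) ≤ 2 * x ^ (1 - 2 * η))) (fun m hm => (Finset.mem_filter.1 hm).2.1)
    have hlq : 2 ≤ log (log q) := by
      refine hPl.trans (log_le_log (log_pos' hP) (log_le_log ?_ ?_))
      · exact_mod_cast (by omega : 0 < P)
      · exact_mod_cast q1.le
    have hqx' : log q ≤ log x / 128 := by
      calc log q ≤ log (x ^ τ) := log_le_log hq0 hqx
        _ = τ * log x := log_rpow hx0 τ
        _ ≤ 1 / 128 * log x := mul_le_mul_of_nonneg_right hτ1 hlx.le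
        _ = log x / 128 := by ring
    have s2 := fin hq16 hlq hx0 hqx'
    have s3 : √(log q) * x ^ (-(kap q / 8)) ≤ 1 / log x ^ 2 := by
      rw [le_div_iff₀ (by positivity), mul_comm]
      exact s2
    have hbq : 0 ≤ b q / q := div_nonneg (h.nn q) hq0.le
    calc 2 * (c - a) * (b q / q) * (√(log q) * x ^ (-(kap q / 8))) *
          ∑ m ∈ (Finset.Icc 1 ⌊c⌋₊).filter (fun m => m ∈ (q + 1).smoothNumbers ∧ x ^ (1 / 2 : ℝ) ≤ q * m ∧
            (q * m : ℝ) ≤ 2 * x ^ (1 - 2 * η)), ab b m * (m : ℝ) ^ (kap q / 2 - 1)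
        ≤ 2 * (c - a) * (b q / q) * (1 / log x ^ 2) * exp (10 * β / √(log P)) := by
          apply mul_le_mul _ s1
          · exact Finset.sum_nonneg fun m _ => mul_nonneg (ab_nonneg h.nn m) (rpow_nonneg (Nat.cast_nonneg _) _)
          · positivity
          · exact mul_le_mul_of_nonneg_left s3 (by positivity)
      _ = _ := by ring
  refine (Finset.sum_le_sum hqsum).trans ?_
  rw [← Finset.mul_sum]
  apply mul_le_mul_of_nonneg_left (h.theta' hδ hβ (by omega) _)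
  positivity

end Pool.Agent.H61.WL
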