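import Pool.Agent.H61.WL.Dn
import Mathlib.Analysis.SpecialFunctions.Log.Monotone
import Mathlib.Tactic.IntervalCases

/-!
# WILD, chapter L (local density): greatest prime factor, greedy factorisation, pointwise bounds
-/

set_option autoImplicit false

namespace Pool.Agent.H61.WL

open Real

/-- the greatest prime factor -/
def gp (n : ℕ) : ℕ := n.primeFactors.sup id

theorem gp_spec {n : ℕ} (hn : 2 ≤ n) : (gp n).Prime ∧ gp n ∣ n ∧ ∀ r, r.Prime → r ∣ n → r ≤ gp n := by
  have hne : n.primeFactors.Nonempty := Nat.nonempty_primeFactors.2 (by omega)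
  obtain ⟨r, hr, he⟩ := Finset.exists_mem_eq_sup n.primeFactors hne id
  have hr' := Nat.mem_primeFactors.1 hr
  have he' : gp n = r := he
  refine ⟨he' ▸ hr'.1, he' ▸ hr'.2.1, fun s hs hd => ?_⟩
  exact Finset.le_sup (f := id) (Nat.mem_primeFactors.2 ⟨hs, hd, by omega⟩)

/-- peel off the largest primes until the product is at least `D` -/
theorem greedy {Y : ℝ} (hY : 1 ≤ Y) (n : ℕ) (hn : n ≠ 0) (hp : ∀ p, p.Prime → p ∣ n → (p : ℝ) ≤ Y) :
    ∀ D : ℝ, 1 ≤ D → D ≤ n → ∃ n1 n2 : ℕ, n1 * n2 = n ∧ D ≤ n2 ∧ (n2 : ℝ) ≤ D * Y ∧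
      ∀ p r, p.Prime → r.Prime → p ∣ n1 → r ∣ n2 → p ≤ r := by
  induction n using Nat.strong_induction_on with
  | _ n ih =>
    intro D hD hDn
    rcases hD.eq_or_lt with hD1 | hD1
    · refine ⟨n, 1, mul_one n, by rw [← hD1, Nat.cast_one], by rw [← hD1, Nat.cast_one, one_mul]; exact hY, ?_⟩
      intro p r _ hr _ hd
      exact absurd (Nat.dvd_one.1 hd) hr.one_lt.ne'
    · have hn2 : 2 ≤ n := by
        have h1 : (1 : ℝ) < n := lt_of_lt_of_le hD1 hDn
        have h2 : 1 < n := by exact_mod_cast h1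
        omega
      obtain ⟨g1, g2, g3⟩ := gp_spec hn2
      obtain ⟨m, hm⟩ := g2
      have hm0 : m ≠ 0 := by
        rintro rfl
        exact hn (by rw [hm, mul_zero])
      have hpos : (0 : ℝ) < gp n := by exact_mod_cast g1.pos
      have hgY : (gp n : ℝ) ≤ Y := hp _ g1 ⟨m, hm⟩
      by_cases hc : D ≤ gp n
      · refine ⟨m, gp n, by rw [mul_comm, ← hm], hc, ?_, ?_⟩
        · calc (gp n : ℝ) ≤ Y := hgY
            _ = 1 * Y := (one_mul Y).symm
            _ ≤ D * Y := mul_le_mul_of_nonneg_right hD (by linarith)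
        · intro p r h1 h2 h3 h4
          rw [(Nat.prime_dvd_prime_iff_eq h2 g1).1 h4]
          exact g3 p h1 (by rw [hm]; exact h3.mul_left _)
      · push Not at hc
        have hlt : m < n := by
          rw [hm]
          exact lt_mul_of_one_lt_left (Nat.pos_of_ne_zero hm0) g1.one_lt
        have hmn : (gp n : ℝ) * m = n := by exact_mod_cast hm.symm
        obtain ⟨n1, n2, e1, e2, e3, e4⟩ := ih m hlt hm0 (fun p h1 h2 => hp p h1 (by rw [hm]; exact h2.mul_left _))
          (D / gp n) (by rw [le_div_iff₀ hpos, one_mul]; exact hc.le) (by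
            rw [div_le_iff₀ hpos, mul_comm, hmn]
            exact hDn)
        refine ⟨n1, gp n * n2, by rw [mul_left_comm, e1, ← hm], ?_, ?_, ?_⟩
        · rw [div_le_iff₀ hpos] at e2
          push_cast
          rwa [mul_comm]
        · push_cast
          calc (gp n : ℝ) * n2 ≤ gp n * (D / gp n * Y) := mul_le_mul_of_nonneg_left e3 hpos.le
            _ = D * Y := by
              field_simp
        · intro p r h1 h2 h3 h4
          rcases (Nat.Prime.dvd_mul h2).1 h4 with h5 | h5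
          · rw [(Nat.prime_dvd_prime_iff_eq h2 g1).1 h5]
            refine g3 p h1 ?_
            rw [hm, ← e1]
            exact (h3.mul_right n2).mul_left _
          · exact e4 p r h1 h2 h3 h5

theorem le_pow_cardFactors {n p : ℕ} (hn : n ≠ 0) (hp : ∀ r, r.Prime → r ∣ n → r ≤ p) :
    n ≤ p ^ ArithmeticFunction.cardFactors n := by
  calc n = n.primeFactorsList.prod := (Nat.prod_primeFactorsList hn).symm
    _ ≤ p ^ n.primeFactorsList.length := List.prod_le_pow_card _ _ fun r hr =>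
      hp r (Nat.prime_of_mem_primeFactorsList hr) (Nat.dvd_of_mem_primeFactorsList hr)
    _ = _ := by rw [ArithmeticFunction.cardFactors_apply]

theorem sq_le_pow_two (k : ℕ) : (k + 1) ^ 2 ≤ 4 * 2 ^ k := by
  induction k with
  | zero => norm_num
  | succ k ih =>
    rw [pow_succ 2 k]
    rcases Nat.lt_or_ge k 2 with hk | hk
    · rcases Nat.lt_or_ge k 1 with h0 | h0
      · have : k = 0 := by omega
        subst this
        norm_num
      · have : k = 1 := by omega
        subst this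
        norm_num
    · nlinarith

/-- `log log q / log q` -/
noncomputable def kap (q : ℕ) : ℝ := log (log q) / log q

theorem exp_one_le_log {q : ℕ} (hq : 16 ≤ q) : exp 1 ≤ log q := by
  have h1 : (16 : ℝ) ≤ q := by exact_mod_cast hq
  have h2 : log 16 ≤ log q := log_le_log (by norm_num) h1
  have h3 : log 16 = 4 * log 2 := by
    rw [show (16 : ℝ) = 2 ^ 4 by norm_num, log_pow]
    norm_num
  have h4 := log_two_gt_d9
  have h5 := exp_one_lt_d9
  linarith

theorem kap_anti {q p : ℕ} (hq : 16 ≤ q) (hp : q ≤ p) : kap p ≤ kap q := by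
  unfold kap
  have h1 := exp_one_le_log hq
  have h2 := exp_one_le_log (hq.trans hp)
  have h3 : log q ≤ log p := log_le_log (by exact_mod_cast (by omega : 0 < q)) (by exact_mod_cast hp)
  exact log_div_self_antitoneOn h1 h2 h3

theorem log_pos' {q : ℕ} (hq : 16 ≤ q) : 0 < log q := lt_of_lt_of_le (exp_pos 1) (exp_one_le_log hq)

theorem kap_pos {q : ℕ} (hq : 16 ≤ q) : 0 < kap q := by
  unfold kap
  refine div_pos (log_pos ?_) (log_pos' hq)
  exact lt_of_lt_of_le (by have := add_one_lt_exp (one_ne_zero (α := ℝ)); linarith) (exp_one_le_log hq)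

theorem rpow_kap {q : ℕ} (hq : 16 ≤ q) (s : ℝ) : (q : ℝ) ^ (s * kap q) = log q ^ s := by
  have hq0 : (0 : ℝ) < q := by exact_mod_cast (by omega : 0 < q)
  have hl := log_pos' hq
  rw [rpow_def_of_pos hq0, rpow_def_of_pos hl]
  congr 1
  unfold kap
  field_simp

theorem log_rpow_le {q p : ℕ} (hq : 16 ≤ q) (hp : q ≤ p) {A : ℝ} (hA : 0 ≤ A) : log p ^ A ≤ (p : ℝ) ^ (A * kap q) := by
  rw [← rpow_kap (hq.trans hp) A]
  apply rpow_le_rpow_of_exponent_le
  · exact_mod_cast (by omega : 1 ≤ p)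
  · exact mul_le_mul_of_nonneg_left (kap_anti hq hp) hA

theorem rpow_le_log {q p : ℕ} (hp : 16 ≤ p) (hq : p ≤ q) {s : ℝ} (hs : 0 ≤ s) : (p : ℝ) ^ (s * kap q) ≤ log p ^ s := by
  rw [← rpow_kap hp s]
  apply rpow_le_rpow_of_exponent_le
  · exact_mod_cast (by omega : 1 ≤ p)
  · exact mul_le_mul_of_nonneg_left (kap_anti hp hq) hs

theorem ab_mono {b b' : ℕ → ℝ} {n : ℕ} (h : ∀ p ∈ n.primeFactors, 0 ≤ b p ∧ b p ≤ b' p) : ab b n ≤ ab b' n := by
  rw [ab_eq_prod b (S := n.primeFactors) le_rfl, ab_eq_prod b' (S := n.primeFactors) le_rfl]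
  apply Finset.prod_le_prod
  · intro p hp
    exact div_nonneg (pow_nonneg (h p hp).1 _) (Nat.cast_nonneg _)
  · intro p hp
    exact div_le_div_of_nonneg_right (pow_le_pow_left₀ (h p hp).1 (h p hp).2 _) (Nat.cast_nonneg _)

theorem ab_const_one_le (n : ℕ) : ab (fun _ => 1) n ≤ 1 := by
  rw [ab_eq_prod _ (S := n.primeFactors) le_rfl]
  apply Finset.prod_le_one
  · intro p _
    positivity
  · intro p _
    rw [one_pow]
    exact div_le_one_of_le₀ (by exact_mod_cast Nat.one_le_iff_ne_zero.2 (Nat.factorial_ne_zero _)) (Nat.cast_nonneg _)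

/-- the pointwise bound for numbers without small prime factors -/
theorem Dn.ab_le {b : ℕ → ℝ} {P : ℕ} {β A δ : ℝ} (h : Dn b P β A δ) (hA : 0 ≤ A) {n q : ℕ} (hn : n ≠ 0) (hq : 16 ≤ q)
    (hp : ∀ p, p.Prime → p ∣ n → q ≤ p) : ab b n ≤ (n : ℝ) ^ (A * kap q) := by
  calc ab b n ≤ ab (fun p => 1 * (p : ℝ) ^ (A * kap q)) n := ab_mono fun p hpn => by
        have hp' := Nat.mem_primeFactors.1 hpn
        refine ⟨h.nn p, ?_⟩
        rw [one_mul]
        exact (h.H2 p).trans (log_rpow_le hq (hp p hp'.1 hp'.2.1) hA)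
    _ = ab (fun _ => 1) n * (n : ℝ) ^ (A * kap q) := ab_mul_rpow (fun _ => 1) _ hn
    _ ≤ 1 * (n : ℝ) ^ (A * kap q) := mul_le_mul_of_nonneg_right (ab_const_one_le n) (by positivity)
    _ = _ := one_mul _

/-- comparison of sums along an injection -/
theorem sum_le_of_inj {ι κ : Type*} [DecidableEq κ] (s : Finset ι) (t : Finset κ) (g : ι → κ) (hg : Set.InjOn g s)
    (hgt : ∀ i ∈ s, g i ∈ t) (f : ι → ℝ) (F : κ → ℝ) (hF : ∀ k ∈ t, 0 ≤ F k) (hf : ∀ i ∈ s, f i ≤ F (g i)) :
    ∑ i ∈ s, f i ≤ ∑ k ∈ t, F k :=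
  calc ∑ i ∈ s, f i ≤ ∑ i ∈ s, F (g i) := Finset.sum_le_sum hf
    _ = ∑ k ∈ s.image g, F k := (Finset.sum_image hg).symm
    _ ≤ ∑ k ∈ t, F k := Finset.sum_le_sum_of_subset_of_nonneg (Finset.image_subset_iff.2 hgt) fun k hk _ => hF k hk

end Pool.Agent.H61.WL
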