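import Pool.Agent.H61.WL.C1
import Pool.Agent.H61.WL.C2

/-!
# WILD, chapter L (local density): the theorem
-/

set_option autoImplicit false

namespace Pool.Agent.H61.WL

open Real Filter Topology

/-- twice `b` -/
theorem Dn.two {b : ℕ → ℝ} {P : ℕ} {β A δ : ℝ} (h : Dn b P β A δ) (hP : 8 ≤ P) :
    Dn (fun p => b p * 2) P (2 * β) (A + 1) δ where
  nn p := mul_nonneg (h.nn p) (by norm_num)
  supp p hp := h.supp p fun h0 => hp (by
    show b p * 2 = 0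
    rw [h0, zero_mul])
  H1 x a c h1 h2 h3 h4 := by
    rw [← Finset.sum_mul]
    calc (∑ p ∈ Finset.Ioc ⌊a⌋₊ ⌊c⌋₊, b p) * 2 ≤ (β * (c - a) / log x ^ 2) * 2 :=
          mul_le_mul_of_nonneg_right (h.H1 x a c h1 h2 h3 h4) (by norm_num)
      _ = 2 * β * (c - a) / log x ^ 2 := by ring
  H2 p := by
    by_cases h0 : b p = 0
    · show b p * 2 ≤ _
      rw [h0, zero_mul]
      exact rpow_nonneg (log_natCast_nonneg p) _
    · have hp := (h.supp p h0).2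
      have h8 : (8 : ℝ) ≤ p := by exact_mod_cast (by omega : 8 ≤ p)
      have hl : 2 ≤ log p := by
        have h1 : log 8 ≤ log p := log_le_log (by norm_num) h8
        have h2 : log 8 = 3 * log 2 := by
          rw [show (8 : ℝ) = 2 ^ 3 by norm_num, log_pow]
          norm_num
        have h3 := log_two_gt_d9
        linarith
      show b p * 2 ≤ log p ^ (A + 1)
      rw [rpow_add (by linarith), rpow_one]
      exact mul_le_mul (h.H2 p) hl (by norm_num) (rpow_nonneg (by linarith) _)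

private theorem final {b : ℕ → ℝ} {P : ℕ} {β A δ : ℝ} (h : Dn b P β A δ) (hδ : 0 < δ) (hβ : 0 ≤ β) (hA : 0 ≤ A)
    (hP : 16 ≤ P) (hPl : 2 ≤ log (log P)) {x a c η ε : ℝ} (hx : 2 ≤ x) (hxa : x ≤ a) (hcx : c ≤ 2 * x)
    (hη : 0 < η) (h1 : η ≤ δ / 256) (h2 : η ≤ 1 / 8) (h3 : (2 * η + 2 * η / δ) * A ≤ 1 / 8) (hxη : 2 ≤ x ^ η)
    (hxδ : 2 ^ δ ≤ x ^ η) (hxτ : 4 ≤ x ^ (2 * η / δ)) (hlen : x ^ (1 - η) ≤ c - a)
    (hε : 16 * β * (exp (20 * β / √(log P)) - 1) + 2 * exp (10 * β / √(log P)) * (10 * β / √(log P)) ≤ ε)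
    (S : Finset ℕ) (hS : ∀ n ∈ S, a < n ∧ (n : ℝ) ≤ c ∧ 2 ≤ ArithmeticFunction.cardFactors n) :
    ∑ n ∈ S, ab b n ≤ ε * (c - a) / log x ^ 2 := by
  classical
  have hx0 : (0 : ℝ) < x := by linarith
  have hx1 : (1 : ℝ) ≤ x := by linarith
  have hca : 0 < c - a := lt_of_lt_of_le (rpow_pos_of_pos hx0 _) hlen
  have hlx : 0 < log x := log_pos (by linarith)
  have hτ : 2 * η / δ ≤ 1 / 128 := by
    rw [div_le_iff₀ hδ]
    linarith
  have hJ : ∀ z : ℝ, x ^ (2 * η / δ) / 2 < z → z ≤ x → z ^ (1 - δ) ≤ (c - a) * (z / x) := by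
    intro z hz _
    have hz0 : 0 < z := lt_trans (by positivity) hz
    have a1 : x ^ η ≤ z ^ δ := by
      have a2 : x ^ (2 * η) / 2 ^ δ ≤ z ^ δ := by
        calc x ^ (2 * η) / 2 ^ δ = (x ^ (2 * η / δ) / 2) ^ δ := by
              rw [div_rpow (rpow_nonneg hx0.le _) (by norm_num), ← rpow_mul hx0.le]
              congr 2
              field_simp
          _ ≤ z ^ δ := rpow_le_rpow (by positivity) hz.le hδ.le
      refine le_trans ?_ a2
      rw [le_div_iff₀ (by positivity), two_mul, rpow_add hx0]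
      exact mul_le_mul_of_nonneg_left hxδ (rpow_nonneg hx0.le _)
    have a3 : x ^ (1 - η) * (z / x) ≤ (c - a) * (z / x) := mul_le_mul_of_nonneg_right hlen (by positivity)
    refine le_trans ?_ a3
    rw [rpow_sub hz0, rpow_sub hx0, rpow_one, rpow_one, div_mul_div_comm, mul_comm x z, mul_div_mul_right _ _ hx0.ne']
    exact div_le_div_of_nonneg_left hz0.le (rpow_pos_of_pos hx0 _) a1
  have s1 := case1 h hδ hβ (by omega) hx hxa (by linarith) hcx hxτ hJ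
    (S := S.filter (fun n => ∃ p, p.Prime ∧ p ∣ n ∧ x ^ (2 * η / δ) < (p : ℝ))) (fun n hn => by
      obtain ⟨b1, b2⟩ := Finset.mem_filter.1 hn
      obtain ⟨b3, b4, b5⟩ := hS n b1
      exact ⟨b3, b4, b5, b2⟩)
  have s2 := case2 h hδ hβ hA hP hPl hx hxa (by linarith) hcx hη (τ := 2 * η / δ) (by positivity) hτ
    (by linarith) h3 hxη hlen (S := S.filter (fun n => ¬ ∃ p, p.Prime ∧ p ∣ n ∧ x ^ (2 * η / δ) < (p : ℝ))) (fun n hn => by
      obtain ⟨b1, b2⟩ := Finset.mem_filter.1 hn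
      obtain ⟨b3, b4, -⟩ := hS n b1
      refine ⟨b3, b4, fun p hp hd => ?_⟩
      by_contra hc
      exact b2 ⟨p, hp, hd, not_le.1 hc⟩)
  rw [← Finset.sum_filter_add_sum_filter_not S (fun n => ∃ p, p.Prime ∧ p ∣ n ∧ x ^ (2 * η / δ) < (p : ℝ))]
  calc _ ≤ 16 * β * (c - a) / log x ^ 2 * (exp (20 * β / √(log P)) - 1) +
        2 * (c - a) / log x ^ 2 * exp (10 * β / √(log P)) * (10 * β / √(log P)) := add_le_add s1 s2
    _ = (16 * β * (exp (20 * β / √(log P)) - 1) + 2 * exp (10 * β / √(log P)) * (10 * β / √(log P))) *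
        ((c - a) / log x ^ 2) := by ring
    _ ≤ ε * ((c - a) / log x ^ 2) := mul_le_mul_of_nonneg_right hε (by positivity)
    _ = _ := by ring

private theorem ev {β ε δ η : ℝ} (hε : 0 < ε) (hδ : 0 < δ) (hη : 0 < η) :
    ∀ᶠ P : ℕ in atTop, 16 ≤ P ∧ 2 ≤ log (log P) ∧
      16 * β * (exp (20 * β / √(log P)) - 1) + 2 * exp (10 * β / √(log P)) * (10 * β / √(log P)) ≤ ε ∧
      2 ≤ ((P : ℝ) / 2) ^ η ∧ 2 ^ δ ≤ ((P : ℝ) / 2) ^ η ∧ 4 ≤ ((P : ℝ) / 2) ^ (2 * η / δ) := by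
  have hc : Tendsto (fun P : ℕ => (P : ℝ)) atTop atTop := tendsto_natCast_atTop_atTop
  have hl : Tendsto (fun P : ℕ => log (P : ℝ)) atTop atTop := tendsto_log_atTop.comp hc
  have hll : Tendsto (fun P : ℕ => log (log (P : ℝ))) atTop atTop := tendsto_log_atTop.comp hl
  have hs : Tendsto (fun P : ℕ => √(log (P : ℝ))) atTop atTop := tendsto_sqrt_atTop.comp hl
  have hd : ∀ C : ℝ, Tendsto (fun P : ℕ => C / √(log (P : ℝ))) atTop (𝓝 0) := fun C => hs.const_div_atTop C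
  have h2 : Tendsto (fun P : ℕ => (P : ℝ) / 2) atTop atTop := hc.atTop_div_const (by norm_num)
  have hr : ∀ s : ℝ, 0 < s → Tendsto (fun P : ℕ => ((P : ℝ) / 2) ^ s) atTop atTop :=
    fun s h => (tendsto_rpow_atTop h).comp h2
  have hg : Tendsto (fun P : ℕ => 16 * β * (exp (20 * β / √(log P)) - 1) +
      2 * exp (10 * β / √(log P)) * (10 * β / √(log P))) atTop (𝓝 0) := by
    have e1 : ∀ C : ℝ, Tendsto (fun P : ℕ => exp (C / √(log (P : ℝ)))) atTop (𝓝 1) := by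
      intro C
      have := (continuous_exp.tendsto 0).comp (hd C)
      rwa [exp_zero] at this
    have e2 := (((e1 (20 * β)).sub_const 1).const_mul (16 * β)).add
      (((e1 (10 * β)).const_mul 2).mul (hd (10 * β)))
    simpa using e2
  filter_upwards [eventually_ge_atTop 16, hll.eventually_ge_atTop 2, hg.eventually (gt_mem_nhds hε),
    (hr η hη).eventually_ge_atTop 2, (hr η hη).eventually_ge_atTop (2 ^ δ),
    (hr (2 * η / δ) (by positivity)).eventually_ge_atTop 4] with P a1 a2 a3 a4 a5 a6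
  exact ⟨a1, a2, a3.le, a4, a5, a6⟩

/-- LOCAL DENSITY -/
theorem LD {β A δ : ℝ} (hβ : 0 < β) (hA : 0 < A) (hδ : 0 < δ) :
    ∃ η₀ : ℝ, 0 < η₀ ∧ ∀ η : ℝ, 0 < η → η ≤ η₀ → ∀ ε : ℝ, 0 < ε → ∃ P₀ : ℕ, ∀ P : ℕ, P₀ ≤ P → ∀ b : ℕ → ℝ, Dn b P β A δ →
      ∀ x a c : ℝ, 2 ≤ x → x ≤ a → c ≤ 2 * x → x ^ (1 - η) ≤ c - a →
        ∑ n ∈ (Finset.Ioc ⌊a⌋₊ ⌊c⌋₊).filter (fun n => 2 ≤ ArithmeticFunction.cardFactors n),
          ab b n * 2 ^ ArithmeticFunction.cardFactors n ≤ ε * (c - a) / log x ^ 2 := by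
  have hK : 0 < 8 * (2 + 2 / δ) * (A + 1) := by positivity
  refine ⟨min (min (δ / 256) (1 / 8)) (1 / (8 * (2 + 2 / δ) * (A + 1))), by positivity, ?_⟩
  intro η hη hη0 ε hε
  have k1 : η ≤ δ / 256 := hη0.trans ((min_le_left _ _).trans (min_le_left _ _))
  have k2 : η ≤ 1 / 8 := hη0.trans ((min_le_left _ _).trans (min_le_right _ _))
  have k3 : (2 * η + 2 * η / δ) * (A + 1) ≤ 1 / 8 := by
    have k4 := hη0.trans (min_le_right _ _)
    rw [le_div_iff₀ hK] at k4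
    have k5 : (2 * η + 2 * η / δ) * (A + 1) = η * (8 * (2 + 2 / δ) * (A + 1)) / 8 := by ring
    rw [k5]
    linarith
  obtain ⟨P₀, hP₀⟩ := eventually_atTop.1 (ev (β := 2 * β) hε hδ hη)
  refine ⟨P₀, fun P hP b hb x a c hx hxa hcx hlen => ?_⟩
  obtain ⟨p1, p2, p3, p4, p5, p6⟩ := hP₀ P hP
  have hx0 : (0 : ℝ) < x := by linarith
  have hca : 0 < c - a := lt_of_lt_of_le (rpow_pos_of_pos hx0 _) hlen
  have hb2 := hb.two (by omega)
  have e1 : ∀ n ∈ (Finset.Ioc ⌊a⌋₊ ⌊c⌋₊).filter (fun n => 2 ≤ ArithmeticFunction.cardFactors n),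
      ab b n * 2 ^ ArithmeticFunction.cardFactors n = ab (fun p => b p * 2) n := fun n _ => (ab_mul_two b n).symm
  rw [Finset.sum_congr rfl e1]
  have hS : ∀ n ∈ (Finset.Ioc ⌊a⌋₊ ⌊c⌋₊).filter (fun n => 2 ≤ ArithmeticFunction.cardFactors n),
      a < n ∧ (n : ℝ) ≤ c ∧ 2 ≤ ArithmeticFunction.cardFactors n := by
    intro n hn
    obtain ⟨h1, h2⟩ := Finset.mem_filter.1 hn
    obtain ⟨h3, h4⟩ := Finset.mem_Ioc.1 h1
    exact ⟨(Nat.floor_lt (by linarith)).1 h3, (Nat.le_floor_iff (by linarith)).1 h4, h2⟩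
  by_cases hxP : (P : ℝ) / 2 < x
  · have hP0 : (0 : ℝ) ≤ (P : ℝ) / 2 := by positivity
    have up : ∀ s : ℝ, 0 ≤ s → ((P : ℝ) / 2) ^ s ≤ x ^ s := fun s hs => rpow_le_rpow hP0 hxP.le hs
    exact final hb2 hδ (by positivity) (by positivity) p1 p2 hx hxa hcx hη k1 k2 k3 (p4.trans (up η hη.le))
      (p5.trans (up η hη.le)) (p6.trans (up _ (by positivity))) hlen p3 _ hS
  · have hz : ∀ n ∈ (Finset.Ioc ⌊a⌋₊ ⌊c⌋₊).filter (fun n => 2 ≤ ArithmeticFunction.cardFactors n),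
        ab (fun p => b p * 2) n = 0 := by
      intro n hn
      by_contra hne
      obtain ⟨h1, h2, h3⟩ := hS n hn
      have hn0 : n ≠ 0 := by
        rintro rfl
        simp at h3
      have hn1 : n ≠ 1 := by
        rintro rfl
        simp at h3
      obtain ⟨g1, g2, -⟩ := gp_spec (show 2 ≤ n by omega)
      have h4 := (hb2.supp _ (ab_ne_zero hne g1 g2 hn0)).2
      have h5 := Nat.le_of_dvd (Nat.pos_of_ne_zero hn0) g2
      have h6 : (P : ℝ) < n := by exact_mod_cast lt_of_lt_of_le h4 h5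
      apply hxP
      linarith
    rw [Finset.sum_eq_zero hz]
    positivity

end Pool.Agent.H61.WL
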